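import Mathlib
import Pool.Agent.Helper550.RadC
/-! Variants of the level data of `Pool.Agent.Helper550.RadC` with better constants. -/
set_option autoImplicit false
set_option linter.unusedSectionVars false
set_option linter.style.haveILetI false
set_option linter.unusedVariables false
open scoped ZeroAtInfty BoundedContinuousFunction ComplexOrder Topology Pointwise
open MeasureTheory Filter Set

namespace Pool.Agent.Y590.RadN
open Pool.Agent.Helper550.Rad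
noncomputable section

universe u
variable {G : Type u} [AddCommGroup G] [TopologicalSpace G] [IsTopologicalAddGroup G]
  [T2Space G] [LocallyCompactSpace G]

section a22
variable [MeasurableSpace G] [BorelSpace G]

theorem exists_trig1 {K : Set G} (hK : IsCompact K) {m : ℕ} {u : Fin m → (G →ᵇ ℂ)} (hu : ∀ i, U01 (u i))
    (hs : ∀ x ∈ K, ∑ i, u i x = 1) (k : ℕ) :
    ∃ (p : Fin m → (G →ᵇ ℂ)) (N : ℕ), (∀ i, ∀ n, 1 ≤ n → ∀ ν : Meas G, ν ^ n ∈ L1c G → (p i • ν) ^ (N * n) ∈ L1c G) ∧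
      (∀ x, ∑ i, ‖p i x‖ ≤ 1 + 1 / (k + 1)) ∧ ∀ i, ∀ x ∈ K, ‖p i x - u i x‖ ≤ 1 / ((k + 1) * (m + 1)) := by
  haveI : CompactSpace K := isCompact_iff_compactSpace.1 hK
  have hemb : Topology.IsClosedEmbedding (fun x : K => iot (x : G)) :=
    Continuous.isClosedEmbedding (iot_cont.comp continuous_subtype_val) (iot_inj.comp Subtype.val_injective)
  have hext : ∀ i, ∃ g : C(BB G, ℝ), ∀ x : K, g (iot (x : G)) = (u i x).re := by
    intro i
    obtain ⟨g, hg⟩ := ContinuousMap.exists_extension' hemb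
      (⟨fun x : K => (u i x).re, Complex.continuous_re.comp ((u i).continuous.comp continuous_subtype_val)⟩ : C(K, ℝ))
    exact ⟨g, fun x => congrFun hg x⟩
  choose g hg using hext
  let S : BB G → ℝ := fun b => max 1 (∑ j, max (g j b) 0)
  have hS : Continuous S := continuous_const.max (continuous_finsetSum _ fun j _ => (g j).continuous.max continuous_const)
  have hS1 : ∀ b, 1 ≤ S b := fun b => le_max_left _ _
  let H : Fin m → C(BB G, ℂ) := fun i => ⟨fun b => ((max (g i b) 0 / S b : ℝ) : ℂ),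
    Complex.continuous_ofReal.comp (((g i).continuous.max continuous_const).div hS (fun b => by
      have := hS1 b; positivity))⟩
  have hH : ∀ i b, ‖H i b‖ = max (g i b) 0 / S b := by
    intro i b
    change ‖((max (g i b) 0 / S b : ℝ) : ℂ)‖ = _
    rw [Complex.norm_real, Real.norm_eq_abs, abs_of_nonneg]
    have := hS1 b
    have := le_max_right (g i b) 0
    positivity
  have hHs : ∀ b, ∑ i, ‖H i b‖ ≤ 1 := by
    intro b
    simp_rw [hH]
    rw [← Finset.sum_div, div_le_one (by linarith [hS1 b])]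
    exact le_max_right _ _
  have hure : ∀ i x, u i x = ((u i x).re : ℂ) := fun i x => by
    have h5 := Complex.nonneg_iff.1 (hu i x).1
    exact Complex.ext (by simp) (by simp [h5.2.symm])
  have hunn : ∀ i x, 0 ≤ (u i x).re := fun i x => (Complex.nonneg_iff.1 (hu i x).1).1
  have hHu : ∀ i, ∀ x ∈ K, H i (iot x) = u i x := by
    intro i x hx
    have h1 : ∀ j, max (g j (iot x)) 0 = (u j x).re := fun j => by
      rw [hg j ⟨x, hx⟩, max_eq_left (hunn j x)]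
    have h2 : S (iot x) = 1 := by
      change max 1 (∑ j, max (g j (iot x)) 0) = 1
      simp_rw [h1]
      rw [← Complex.re_sum, hs x hx]; simp
    change ((max (g i (iot x)) 0 / S (iot x) : ℝ) : ℂ) = u i x
    rw [h1, h2, div_one]; exact (hure i x).symm
  set ε' : ℝ := 1 / ((k + 1) * (m + 1)) with hε'
  have hε'0 : 0 < ε' := by positivity
  have happ : ∀ i, ∃ P : C(BB G, ℂ), pull P ∈ TP G ∧ ‖P - H i‖ < ε' := fun i => SA_dense (H i) hε'0
  choose P hP1 hP2 using happ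
  have hpred := fun i => TP_pred (hP1 i)
  choose N hN using hpred
  have hPx : ∀ i b, ‖P i b - H i b‖ ≤ ε' := by
    intro i b
    have := ((P i - H i).norm_coe_le_norm b).trans (hP2 i).le
    simpa using this
  refine ⟨fun i => pull (P i), ∑ i, N i, ?_, ?_, ?_⟩
  · intro i n hn ν hν
    have h1 := hN i n hn ν hν
    have h2 : N i * n ≤ (∑ i, N i) * n :=
      Nat.mul_le_mul_right _ (Finset.single_le_sum (fun j _ => Nat.zero_le (N j)) (Finset.mem_univ i))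
    have h3 : (pull (P i) • ν) ^ ((∑ i, N i) * n) = (pull (P i) • ν) ^ ((∑ i, N i) * n - N i * n) * (pull (P i) • ν) ^ (N i * n) := by
      rw [← pow_add, Nat.sub_add_cancel h2]
    rw [h3]
    exact mul_mem h1 _
  · intro x
    have h1 : ∀ i, ‖pull (P i) x‖ ≤ ‖H i (iot x)‖ + ε' := by
      intro i
      have h2 := hPx i (iot x)
      have h3 := norm_add_le (P i (iot x) - H i (iot x)) (H i (iot x))
      rw [sub_add_cancel] at h3
      change ‖P i (iot x)‖ ≤ _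
      linarith
    calc ∑ i, ‖pull (P i) x‖ ≤ ∑ i, (‖H i (iot x)‖ + ε') := Finset.sum_le_sum fun i _ => h1 i
      _ = ∑ i, ‖H i (iot x)‖ + m * ε' := by rw [Finset.sum_add_distrib]; simp
      _ ≤ 1 + 1 / (k + 1) := by
          apply add_le_add (hHs _)
          rw [hε', mul_one_div, div_le_div_iff₀ (by positivity) (by positivity)]
          have : (0 : ℝ) ≤ k := Nat.cast_nonneg k
          nlinarith
  · intro i x hx
    rw [← hHu i x hx]
    exact hPx i (iot x)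

end a22

section a23
variable [MeasurableSpace G] [BorelSpace G]

/-- level data recorded in a state -/
structure Lev1 (u0 : C₀(G, ℂ)) (k : ℕ) (ε : ℝ) (s : St G) (m : ℕ) (u φ p : Fin m → (G →ᵇ ℂ)) (R : Fin m → Finset (Fin m))
    (N J : ℕ) : Prop where
  u1 : ∀ i, U01 (u i)
  us : ∀ x ∈ tsupport u0, ∑ i, u i x = 1
  r : ∀ i, ‖s.f (bm (∑ j ∈ R i, u j) u0)‖ ≤ ε
  ry : ∀ i, bm (∑ j ∈ R i, u j) u0 ∈ s.Y
  pr : ∀ i j, j ∉ R i → (u i :: u j :: List.replicate J 1) ∈ s.P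
  tk : ∀ i, (⟨φ i, u i, (k + 1) * (N * k) + 1⟩ : Pool.Agent.Helper550.Rad.Task G) ∈ s.T
  n1 : ∀ i, ∀ n, 1 ≤ n → ∀ ν : Meas G, ν ^ n ∈ L1c G → (p i • ν) ^ (N * n) ∈ L1c G
  p2 : ∀ x, ∑ i, ‖p i x‖ ≤ 1 + 1 / (k + 1)
  pu : ∀ i, ∀ x ∈ tsupport u0, ‖p i x - u i x‖ ≤ 1 / ((k + 1) * (m + 1))
  dd : ∃ V ∈ 𝓝 (0 : G), ∀ ψ, Small V ψ → ∀ i j, j ∉ R i → u i * ψ = 0 ∨ u j * ψ = 0

/-- there is level data -/
def Level1 (u0 : C₀(G, ℂ)) (k : ℕ) (ε : ℝ) (s : St G) : Prop :=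
  ∃ (m : ℕ) (u φ p : Fin m → (G →ᵇ ℂ)) (R : Fin m → Finset (Fin m)) (N J : ℕ), Lev1 u0 k ε s m u φ p R N J

theorem Level1.ext {u0 : C₀(G, ℂ)} {k : ℕ} {ε ε' : ℝ} {s s' : St G} (h : Level1 u0 k ε s) (hE : Ext ε' s s')
    (h1 : [(1 : G →ᵇ ℂ)] ∈ s.L) : Level1 u0 k (ε + ε') s' := by
  obtain ⟨m, u, φ, p, R, N, J, a1, a2, a3, a4, a5, a6, a7, a8, a9, a10⟩ := h
  refine ⟨m, u, φ, p, R, N, J, a1, a2, ?_, fun i => hE.y _ (a4 i), fun i j hij => hE.p _ (a5 i j hij), fun i => hE.t _ (a6 i), a7, a8, a9, a10⟩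
  intro i
  have h2 := hE.dl _ h1 _ (a4 i)
  simp only [prodl_cons, prodl_nil, mul_one, one_smul] at h2
  have h3 := norm_add_le (s'.f (bm (∑ j ∈ R i, u j) u0) - s.f (bm (∑ j ∈ R i, u j) u0)) (s.f (bm (∑ j ∈ R i, u j) u0))
  rw [sub_add_cancel] at h3
  linarith [a3 i]

theorem stepA1 [hnd : NeBot (𝓝[≠] (0 : G))] {u0 : C₀(G, ℂ)} (hu0 : Cut u0) {s : St G} (hs : Good u0 s) (k : ℕ) {ε : ℝ} (hε : 0 < ε) :
    ∃ s' : St G, Good u0 s' ∧ Ext 0 s s' ∧ Level1 u0 k ε s' := by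
  obtain ⟨V, hV, hVs, m, u, φ, R, c1, c2, c3, c4, c5, c6, c7⟩ := exists_cells hu0 hs.mem hs.nh hε
  obtain ⟨p, N, t1, t2, t3⟩ := exists_trig1 (K := tsupport u0) hu0.cs c1 c4 k
  set o : ℕ := (k + 1) * (N * k) + 1 with ho
  set J : ℕ := (s.T.map (fun τ => 2 * τ.o)).sum with hJ
  set newP : List (List (G →ᵇ ℂ)) :=
    ((List.finRange m ×ˢ List.finRange m).filter (fun q => q.2 ∉ R q.1)).map (fun q => u q.1 :: u q.2 :: List.replicate J 1) with hnewP
  set newL : List (List (G →ᵇ ℂ)) := (List.finRange m).map (fun i => List.replicate o (u i)) with hnewL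
  set newY : List C₀(G, ℂ) := (List.finRange m).map (fun i => bm (∑ j ∈ R i, u j) u0) with hnewY
  set newT : List (Pool.Agent.Helper550.Rad.Task G) := (List.finRange m).map (fun i => ⟨φ i, u i, o⟩) with hnewT
  have memP : ∀ l ∈ newP, ∃ i j, j ∉ R i ∧ l = u i :: u j :: List.replicate J 1 := by
    intro l hl
    obtain ⟨q, hq, rfl⟩ := List.mem_map.1 hl
    rw [List.mem_filter] at hq
    exact ⟨q.1, q.2, by simpa using hq.2, rfl⟩
  have memT : ∀ τ ∈ newT, ∃ i, τ = ⟨φ i, u i, o⟩ := by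
    intro τ hτ
    obtain ⟨i, _, rfl⟩ := List.mem_map.1 hτ
    exact ⟨i, rfl⟩
  refine ⟨⟨s.f, V, newP ++ s.P, newL ++ s.L, newY ++ s.Y, newT ++ s.T⟩, ⟨hs.mem, hs.pos, hs.sup, hV, ?_, ?_, ?_, ?_, ?_⟩,
    ⟨hVs, fun l hl => List.mem_append.2 (Or.inr hl), fun l hl => List.mem_append.2 (Or.inr hl),
      fun l hl => List.mem_append.2 (Or.inr hl), fun l hl => List.mem_append.2 (Or.inr hl), fun l _ => by simp, fun l _ y _ => by simp⟩,
    m, u, φ, p, R, N, J, c1, c4, c6, ?_, ?_, ?_, t1, t2, t3, V, hV, c7⟩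
  · intro l hl
    rcases List.mem_append.1 hl with hl | hl
    · obtain ⟨i, j, _, rfl⟩ := memP l hl
      refine ⟨by simp, fun t ht => ?_⟩
      rcases List.mem_cons.1 ht with rfl | ht
      · exact c1 i
      rcases List.mem_cons.1 ht with rfl | ht
      · exact c1 j
      rw [List.eq_of_mem_replicate ht]; exact U01_one
    · exact hs.p1 l hl
  · intro l hl
    rcases List.mem_append.1 hl with hl | hl
    · obtain ⟨i, _, rfl⟩ := List.mem_map.1 hl
      refine ⟨?_, fun t ht => ?_⟩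
      · intro h; rw [List.replicate_eq_nil_iff] at h; omega
      · rw [List.eq_of_mem_replicate ht]; exact c1 i
    · exact hs.l1 l hl
  · intro τ hτ
    rcases List.mem_append.1 hτ with hτ | hτ
    · obtain ⟨i, rfl⟩ := memT τ hτ
      exact ⟨c2 i, c1 i, c3 i, by change 1 ≤ o; omega,
        List.mem_append.2 (Or.inl (List.mem_map.2 ⟨i, List.mem_finRange i, rfl⟩))⟩
    · obtain ⟨a1, a2, a3, a4, a5⟩ := hs.t1 τ hτ
      exact ⟨a1, a2, a3, a4, List.mem_append.2 (Or.inr a5)⟩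
  · intro l hl τ hτ
    rcases List.mem_append.1 hτ with hτ | hτ
    · obtain ⟨i, rfl⟩ := memT τ hτ
      right
      rcases List.mem_append.1 hl with hl | hl
      · obtain ⟨i', j', hij, rfl⟩ := memP l hl
        rcases c7 (φ i) (c5 i) i' j' hij with h | h
        · exact ⟨u i', by simp, h⟩
        · exact ⟨u j', by simp, h⟩
      · exact hs.pv l hl (φ i) ((c5 i).mono hVs)
    · rcases List.mem_append.1 hl with hl | hl
      · obtain ⟨i', j', hij, rfl⟩ := memP l hl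
        left
        have h1 : 2 * τ.o ≤ J := by
          rw [hJ]
          exact List.single_le_sum (fun _ _ => Nat.zero_le _) _ (List.mem_map.2 ⟨τ, hτ, rfl⟩)
        simp only [List.length_cons, List.length_replicate]
        omega
      · exact hs.pt l hl τ hτ
  · intro l hl ψ hψ
    rcases List.mem_append.1 hl with hl | hl
    · obtain ⟨i', j', hij, rfl⟩ := memP l hl
      rcases c7 ψ hψ i' j' hij with h | h
      · exact ⟨u i', by simp, h⟩
      · exact ⟨u j', by simp, h⟩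
    · exact hs.pv l hl ψ (hψ.mono hVs)
  · intro i
    exact List.mem_append.2 (Or.inl (List.mem_map.2 ⟨i, List.mem_finRange i, rfl⟩))
  · intro i j hij
    refine List.mem_append.2 (Or.inl (List.mem_map.2 ⟨(i, j), ?_, rfl⟩))
    rw [List.mem_filter]
    refine ⟨by simp, by simpa using hij⟩
  · intro i
    exact List.mem_append.2 (Or.inl (List.mem_map.2 ⟨i, List.mem_finRange i, rfl⟩))

theorem step1 [hnd : NeBot (𝓝[≠] (0 : G))] {κ : ℝ} {F : Filter (G →ᵇ ℂ)} (hR : RLD κ F) {u0 : C₀(G, ℂ)} (hu0 : Cut u0) {w w2 : ℕ → C₀(G, ℂ)}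
    (hw : ∀ n, Cut (w n)) (hw2 : ∀ n, Cut (w2 n)) (hww : ∀ n, ∀ x ∈ tsupport (w n), w2 n x = 1)
    {s : St G} (hs : Good u0 s) (h1 : [(1 : G →ᵇ ℂ)] ∈ s.L) (k : ℕ) {ε : ℝ} (hε : 0 < ε) :
    ∃ s' : St G, Good u0 s' ∧ [(1 : G →ᵇ ℂ)] ∈ s'.L ∧ Ext ε s s' ∧ Level1 u0 k ε s' ∧ ∀ τ ∈ s'.T, Proc w ε τ s' := by
  obtain ⟨s1, g1, e1, v1⟩ := stepA1 hu0 hs k (half_pos hε)
  obtain ⟨s2, g2, e2, t2, p2⟩ := stepB hR hu0 hw hw2 hww s1.T s1 (ε / 2) g1 (fun _ h => h) (half_pos hε)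
  have h1' := e1.l _ h1
  refine ⟨s2, g2, e2.l _ h1', ?_, ?_, ?_⟩
  · have e3 := e1.trans e2
    rw [zero_add] at e3
    exact ⟨e3.v, e3.p, e3.l, e3.y, e3.t, fun l hl => (e3.dp l hl).trans (by linarith), fun l hl y hy => (e3.dl l hl y hy).trans (by linarith)⟩
  · have := v1.ext e2 h1'
    rwa [add_halves] at this
  · intro τ hτ
    rw [t2] at hτ
    exact (p2 τ hτ).mono (by linarith)

end a23

section a24
variable [MeasurableSpace G] [BorelSpace G]

theorem exists_seq1 [hnd : NeBot (𝓝[≠] (0 : G))] {κ : ℝ} {F : Filter (G →ᵇ ℂ)} (hR : RLD κ F) {u0 : C₀(G, ℂ)} (hu0 : Cut u0)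
    {w w2 : ℕ → C₀(G, ℂ)} (hw : ∀ n, Cut (w n)) (hw2 : ∀ n, Cut (w2 n)) (hww : ∀ n, ∀ x ∈ tsupport (w n), w2 n x = 1)
    {f0 : Meas G} (hf0 : f0 ∈ L1c G) (hpos : Pos f0) (hin : bc u0 • f0 = f0) :
    ∃ s : ℕ → St G, (∀ n, Good u0 (s n)) ∧ (∀ n, [(1 : G →ᵇ ℂ)] ∈ (s n).L) ∧ (s 0).f = f0 ∧ u0 ∈ (s 0).Y ∧
      (∀ n, Ext (ee n) (s n) (s (n + 1))) ∧ (∀ n, Level1 u0 n (ee n) (s (n + 1))) ∧
      (∀ n, ∀ τ ∈ (s (n + 1)).T, Proc w (ee n) τ (s (n + 1))) := by
  have hstep : ∀ (n : ℕ) (s : {s : St G // Good u0 s ∧ [(1 : G →ᵇ ℂ)] ∈ s.L}), ∃ s' : {s : St G // Good u0 s ∧ [(1 : G →ᵇ ℂ)] ∈ s.L},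
      Ext (ee n) s.1 s'.1 ∧ Level1 u0 n (ee n) s'.1 ∧ ∀ τ ∈ s'.1.T, Proc w (ee n) τ s'.1 := by
    intro n s
    obtain ⟨s', a1, a2, a3, a4, a5⟩ := step1 hR hu0 hw hw2 hww s.2.1 s.2.2 n (ee_pos n)
    exact ⟨⟨s', a1, a2⟩, a3, a4, a5⟩
  choose nx hnx using hstep
  let s0 : {s : St G // Good u0 s ∧ [(1 : G →ᵇ ℂ)] ∈ s.L} := ⟨⟨f0, univ, [], [[1]], [u0], []⟩,
    ⟨hf0, hpos, hin, univ_mem, by simp, by
      intro l hl
      rw [List.mem_singleton] at hl
      subst hl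
      exact ⟨by simp, fun t ht => by rw [List.mem_singleton] at ht; rw [ht]; exact U01_one⟩, by simp, by simp, by simp⟩, by simp⟩
  let s : ℕ → {s : St G // Good u0 s ∧ [(1 : G →ᵇ ℂ)] ∈ s.L} := fun n => Nat.rec s0 (fun n x => nx n x) n
  refine ⟨fun n => (s n).1, fun n => (s n).2.1, fun n => (s n).2.2, rfl, by simp [s, s0], fun n => (hnx n (s n)).1,
    fun n => (hnx n (s n)).2.1, fun n => (hnx n (s n)).2.2⟩

end a24

section a25
variable [MeasurableSpace G] [BorelSpace G]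

theorem main_data1 [hnd : NeBot (𝓝[≠] (0 : G))] : ∃ (u0 : C₀(G, ℂ)) (μ : Meas G), Cut u0 ∧ Pos μ ∧ bc u0 • μ = μ ∧ 3 / 4 ≤ ‖μ‖ ∧
    (∀ ε > 0, ∃ (m : ℕ) (u : Fin m → (G →ᵇ ℂ)) (R : Fin m → Finset (Fin m)) (J : ℕ), (∀ i, U01 (u i)) ∧
      (∀ x ∈ tsupport u0, ∑ i, u i x = 1) ∧ (∀ i, ‖(∑ j ∈ R i, u j) • μ‖ ≤ ε) ∧
      (∀ i j, j ∉ R i → (u i • μ) * ((u j • μ) * μ ^ J) ∈ L1c G) ∧
      ∃ V ∈ 𝓝 (0 : G), ∀ ψ, Small V ψ → ∀ i j, j ∉ R i → u i * ψ = 0 ∨ u j * ψ = 0) ∧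
    (∀ k : ℕ, ∃ (m : ℕ) (u p : Fin m → (G →ᵇ ℂ)) (N : ℕ), (∀ i, U01 (u i)) ∧ (∀ x ∈ tsupport u0, ∑ i, u i x = 1) ∧
      (∀ i, ∀ n, 1 ≤ n → ∀ ν : Meas G, ν ^ n ∈ L1c G → (p i • ν) ^ (N * n) ∈ L1c G) ∧
      (∀ x, ∑ i, ‖p i x‖ ≤ 1 + 1 / (k + 1)) ∧ (∀ i, ∀ x ∈ tsupport u0, ‖p i x - u i x‖ ≤ 1 / ((k + 1) * (m + 1))) ∧
      ∀ i, ∀ g ∈ L1c G, ‖u i • μ‖ ^ ((k + 1) * (N * k) + 1) ≤ ‖(u i • μ) ^ ((k + 1) * (N * k) + 1) - g‖) := by
  obtain ⟨κ, F, hR⟩ := exists_RLD (G := G)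
  obtain ⟨u0, f0, hu0, hf0, hpos0, hin0, hn0⟩ := exists_init (G := G)
  obtain ⟨w, hw, hw0, hws⟩ := exists_w hu0
  have hw2ex : ∀ n, ∃ v : C₀(G, ℂ), Cut v ∧ ∀ x ∈ tsupport (w n), v x = 1 := fun n => exists_cut' (K := tsupport (w n)) (hw n).cs
  choose w2 hw2 hww using hw2ex
  obtain ⟨s, sG, sL1, s0, sY0, sE, sLev, sPr⟩ := exists_seq1 hR hu0 hw hw2 hww hf0 hpos0 hin0
  -- monotonicity
  have mP : ∀ n m, n ≤ m → ∀ l ∈ (s n).P, l ∈ (s m).P := by
    intro n m hnm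
    induction m, hnm using Nat.le_induction with
    | base => exact fun _ h => h
    | succ m _ ih => exact fun l hl => (sE m).p l (ih l hl)
  have mL : ∀ n m, n ≤ m → ∀ l ∈ (s n).L, l ∈ (s m).L := by
    intro n m hnm
    induction m, hnm using Nat.le_induction with
    | base => exact fun _ h => h
    | succ m _ ih => exact fun l hl => (sE m).l l (ih l hl)
  have mY : ∀ n m, n ≤ m → ∀ l ∈ (s n).Y, l ∈ (s m).Y := by
    intro n m hnm
    induction m, hnm using Nat.le_induction with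
    | base => exact fun _ h => h
    | succ m _ ih => exact fun l hl => (sE m).y l (ih l hl)
  have mT : ∀ n m, n ≤ m → ∀ l ∈ (s n).T, l ∈ (s m).T := by
    intro n m hnm
    induction m, hnm using Nat.le_induction with
    | base => exact fun _ h => h
    | succ m _ ih => exact fun l hl => (sE m).t l (ih l hl)
  -- norms
  have hmass : ∀ n, (s n).f u0 = (‖(s n).f‖ : ℂ) := fun n => (sG n).pos.norm_eq hu0 (sG n).sup
  have hnorm : ∀ n, |‖(s n).f‖ - 1| ≤ 1 / 4 := by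
    intro n
    have h1 := tele' (a := fun n => (s n).f u0) (n := 0) (fun i _ => by
      have := (sE i).dl [1] (sL1 i) u0 (mY 0 i (Nat.zero_le _) u0 sY0)
      simpa [prodl_cons] using this) n (Nat.zero_le _)
    rw [hmass, hmass, s0, hn0, ee_zero, ← Complex.ofReal_sub, Complex.norm_real] at h1
    have h2 : |‖(s n).f‖ - 1| ≤ 2 * (1 / 8) := h1
    linarith
  have hC : ∀ n, ‖(s n).f‖ ≤ 2 := fun n => by
    have := (abs_le.1 (hnorm n)).2
    linarith
  obtain ⟨μ, hμ⟩ := exists_weak_lim (f := fun n => (s n).f) (by norm_num : (0 : ℝ) ≤ 2) hC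
  have hμpos : Pos μ := fun g hg => ge_of_tendsto (hμ g) (Eventually.of_forall fun n => (sG n).pos g hg)
  have hμin : bc u0 • μ = μ := by
    ext g
    refine tendsto_nhds_unique (hμ (bm (bc u0) g)) ((hμ g).congr fun n => ?_)
    rw [← act_apply, (sG n).sup]
  have hμnorm : 3 / 4 ≤ ‖μ‖ := by
    have h1 := hμpos.norm_eq hu0 hμin
    have h2 : Tendsto (fun n => ((s n).f u0).re) (hyperfilter ℕ : Filter ℕ) (𝓝 (μ u0).re) :=
      (Complex.continuous_re.tendsto _).comp (hμ u0)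
    have h3 : 3 / 4 ≤ (μ u0).re := by
      refine ge_of_tendsto h2 (Eventually.of_forall fun n => ?_)
      rw [hmass, Complex.ofReal_re]
      have := (abs_le.1 (hnorm n)).1
      linarith
    rwa [h1, Complex.ofReal_re] at h3
  have hle : (hyperfilter ℕ : Filter ℕ) ≤ atTop := by
    rw [← Nat.cofinite_eq_atTop]; exact hyperfilter_le_cofinite
  have hK : IsCompact (tsupport u0) := hu0.cs
  have hsupp : ∀ n, Supp (tsupport u0) (s n).f := fun n => by
    have h := supp_of_act (K := tsupport u0) (b := bc u0) (fun x hx => by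
      rw [bc_apply]; exact image_eq_zero_of_notMem_tsupport hx) ((s n).f)
    rwa [(sG n).sup] at h
  have hweak : ∀ l : List (G →ᵇ ℂ), (∀ b ∈ l, U01 b) → ∀ g, Tendsto (fun n => prodl l (s n).f g) (hyperfilter ℕ : Filter ℕ) (𝓝 (prodl l μ g)) :=
    fun l hl => weak_prodl hK hsupp hC hμ hl
  -- weak control
  have hdl : ∀ n, ∀ l ∈ (s n).L, ∀ y ∈ (s n).Y, ‖prodl l μ y - prodl l (s n).f y‖ ≤ 2 * ee n := by
    intro n l hl y hy
    have h1 := ((hweak l ((sG n).l1 l hl).2 y).sub_const (prodl l (s n).f y)).norm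
    refine le_of_tendsto h1 (hle (eventually_atTop.2 ⟨n, fun m hm => ?_⟩))
    exact tele' (a := fun m => prodl l (s m).f y) (fun i hi => (sE i).dl l (mL n i hi l hl) y (mY n i hi y hy)) m hm
  -- protected products
  have hprot : ∀ n, ∀ l ∈ (s n).P, prodl l μ ∈ L1c G := by
    intro n l hl
    have htele : ∀ k, n ≤ k → ∀ m, k ≤ m → ‖prodl l (s m).f - prodl l (s k).f‖ ≤ 2 * ee k := fun k hk m hm =>
      tele' (a := fun m => prodl l (s m).f) (fun i hi => (sE i).dp l (mP n i (hk.trans hi) l hl)) m hm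
    have hcau : CauchySeq (fun m => prodl l (s m).f) := by
      rw [Metric.cauchySeq_iff']
      intro ε hε
      obtain ⟨N, hN⟩ := Metric.tendsto_atTop.1 ee_tend (ε / 2) (half_pos hε)
      refine ⟨max n N, fun m hm => ?_⟩
      have h1 := htele (max n N) (le_max_left _ _) m hm
      have h2 := hN (max n N) (le_max_right _ _)
      rw [dist_zero_right, Real.norm_eq_abs, abs_of_pos (ee_pos _)] at h2
      rw [dist_eq_norm]; linarith
    obtain ⟨ρ, hρ⟩ := cauchySeq_tendsto_of_complete hcau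
    have hρm : ρ ∈ L1c G := L1c_closed.mem_of_tendsto hρ
      (Eventually.of_forall fun m => prodl_mem (sG m).mem ((sG n).p1 l hl).1)
    have : prodl l μ = ρ := by
      ext g
      refine tendsto_nhds_unique (hweak l ((sG n).p1 l hl).2 g) ?_
      exact (((Meas.evL g).continuous.tendsto ρ).comp hρ).mono_left hle
    rw [this]; exact hρm
  -- lower bounds
  have hlow : ∀ n0, ∀ τ ∈ (s n0).T, ∀ g ∈ L1c G, ‖τ.b • μ‖ ^ τ.o ≤ ‖(τ.b • μ) ^ τ.o - g‖ := by
    intro n0 τ hτ g hg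
    obtain ⟨_, hb, _, _, _⟩ := (sG n0).t1 τ hτ
    have hpr : ∀ n, Proc w (ee (n0 + n)) τ (s (n0 + n + 1)) := fun n => sPr (n0 + n) τ (mT n0 (n0 + n + 1) (by omega) τ hτ)
    choose q q1 q2 q3 q4 using hpr
    have htend : Tendsto (fun n => ee (n0 + n)) atTop (𝓝 0) := by
      have h1 : (fun n => ee (n0 + n)) = fun n => ee (n + n0) := by ext n; rw [add_comm]
      rw [h1]
      exact (tendsto_add_atTop_iff_nat n0).2 ee_tend
    have hq0 : Tendsto (fun n => ∫ x, ‖q n x‖ ∂(Measure.addHaar : Measure G)) atTop (𝓝 0) :=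
      squeeze_zero (fun n => integral_nonneg fun x => norm_nonneg _) q4 htend
    have hgq := (q_tend q1 hq0 hg).norm
    rw [norm_zero] at hgq
    set rep := List.replicate τ.o τ.b with hrep
    have hrepU : ∀ b ∈ rep, U01 b := fun b h => by rw [List.eq_of_mem_replicate h]; exact hb
    have hval : prodl rep μ (w τ.o) = ((‖τ.b • μ‖ ^ τ.o : ℝ) : ℂ) := by
      have h1 := prodl_mass hw0 hws hμin rep
      rw [hrep, List.length_replicate, List.map_replicate, List.prod_replicate] at h1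
      rw [hrep, h1]
      have h2 : (τ.b • μ) u0 = (‖τ.b • μ‖ : ℂ) := (hμpos.act fun x => (hb x).1).norm_eq hu0 (by rw [act_comm, hμin])
      rw [h2]; push_cast; rfl
    have hbound : ∀ n, ‖τ.b • μ‖ ^ τ.o ≤ ‖(τ.b • μ) ^ τ.o - g‖ + ‖g (q n)‖ + 2 * ee (n0 + n) := by
      intro n
      have hrL : rep ∈ (s (n0 + n + 1)).L := ((sG (n0 + n + 1)).t1 τ (mT n0 (n0 + n + 1) (by omega) τ hτ)).2.2.2.2
      have h1 := (Complex.re_le_norm _).trans (hdl (n0 + n + 1) rep hrL _ (q2 n))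
      rw [Complex.sub_re] at h1
      have h2 := q3 n
      rw [ee_succ] at h1
      have h3 : (prodl rep μ (w τ.o - q n)).re ≤ 2 * ee (n0 + n) := by linarith
      rw [map_sub, Complex.sub_re, hval, Complex.ofReal_re] at h3
      have h4 : prodl rep μ = (τ.b • μ) ^ τ.o := prodl_replicate _ _ _
      rw [h4] at h3
      have h5 : ((τ.b • μ) ^ τ.o) (q n) = ((τ.b • μ) ^ τ.o - g) (q n) + g (q n) := by rw [Meas.sub_apply]; ring
      have h6 := (Complex.re_le_norm _).trans (Meas.le_of (le_refl ‖(τ.b • μ) ^ τ.o - g‖) (q1 n).norm_le)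
      have h7 := Complex.re_le_norm (g (q n))
      have h8 := congrArg Complex.re h5
      rw [Complex.add_re] at h8
      linarith
    have hlim : Tendsto (fun n => ‖(τ.b • μ) ^ τ.o - g‖ + ‖g (q n)‖ + 2 * ee (n0 + n)) atTop (𝓝 (‖(τ.b • μ) ^ τ.o - g‖ + 0 + 2 * 0)) :=
      (tendsto_const_nhds.add hgq).add (htend.const_mul 2)
    have := ge_of_tendsto' hlim hbound
    linarith
  refine ⟨u0, μ, hu0, hμpos, hμin, hμnorm, ?_, ?_⟩
  · intro ε hε
    obtain ⟨n, hn⟩ := ((Metric.tendsto_atTop.1 ee_tend (ε / 3) (by linarith)))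
    have hn' := hn n le_rfl
    rw [dist_zero_right, Real.norm_eq_abs, abs_of_pos (ee_pos _)] at hn'
    obtain ⟨m, u, φ, p, R, N, J, hL⟩ := sLev n
    refine ⟨m, u, R, J, hL.u1, hL.us, ?_, ?_, hL.dd⟩
    · intro i
      have hP : Pos ((∑ j ∈ R i, u j) • μ) := hμpos.act fun x => by
        rw [BoundedContinuousFunction.sum_apply]
        exact Finset.sum_nonneg fun j _ => (hL.u1 j x).1
      have h1 := hP.norm_eq hu0 (by rw [act_comm, hμin])
      have h2 := hdl (n + 1) [1] (sL1 _) _ (hL.ry i)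
      simp only [prodl_cons, prodl_nil, mul_one, one_smul] at h2
      have h3 := hL.r i
      have h4 : ‖μ (bm (∑ j ∈ R i, u j) u0)‖ ≤ 2 * ee n := by
        have h5 := norm_add_le (μ (bm (∑ j ∈ R i, u j) u0) - (s (n + 1)).f (bm (∑ j ∈ R i, u j) u0)) ((s (n + 1)).f (bm (∑ j ∈ R i, u j) u0))
        rw [sub_add_cancel] at h5
        rw [ee_succ] at h2
        linarith
      rw [act_apply] at h1
      rw [h1, Complex.norm_real, norm_norm] at h4
      linarith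
    · intro i j hij
      have h1 := hprot (n + 1) _ (hL.pr i j hij)
      rw [prodl_cons, prodl_cons, prodl_replicate, one_smul] at h1
      exact h1
  · intro k
    obtain ⟨m, u, φ, p, R, N, J, hL⟩ := sLev k
    exact ⟨m, u, p, N, hL.u1, hL.us, hL.n1, hL.p2, hL.pu, fun i g hg => hlow (k + 1) _ (hL.tk i) g hg⟩

end a25

end
end Pool.Agent.Y590.RadN
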