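import Mathlib
import Pool.Agent.Helper550.RadC
/-! Weights: multiplication by bounded continuous functions, estimates. -/
set_option autoImplicit false
set_option linter.unusedSectionVars false
set_option linter.style.haveILetI false
set_option linter.unusedVariables false
open scoped ZeroAtInfty BoundedContinuousFunction ComplexOrder Topology Pointwise
open MeasureTheory Filter Set

namespace Pool.Agent.Y590.RadN
open Pool.Agent.Helper550.Rad
noncomputable section

universe u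
variable {G : Type u} [AddCommGroup G] [TopologicalSpace G] [IsTopologicalAddGroup G]
  [T2Space G] [LocallyCompactSpace G]

theorem ring_est1 {A : Type*} [NormedCommRing A] [NormOneClass A] {θ : ℝ} (h0 : 0 < θ) (h1 : θ < 1) :
    ∃ L0 : ℕ, ∀ L, L0 ≤ L → ∀ (I : AddSubgroup A), (∀ x ∈ I, ∀ a, a * x ∈ I) → ∀ {x y z : A} {t : ℝ},
    0 < t → x = y + z → ‖y‖ ≤ 2 * t → ‖z‖ ≤ θ * t → ∀ {M : ℕ}, y ^ M ∈ I →
    (∀ g ∈ I, t ^ (L * M + 1) ≤ ‖x ^ (L * M + 1) - g‖) → False := by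
  obtain ⟨b, hb⟩ : ∃ b : ℝ, b = (1 + θ) / 2 := ⟨_, rfl⟩
  obtain ⟨a, ha⟩ : ∃ a : ℝ, a = (1 - θ) / 2 := ⟨_, rfl⟩
  have hb0 : 0 < b := by rw [hb]; linarith
  have ha0 : 0 < a := by rw [ha]; linarith
  have hab : a + b = 1 := by rw [ha, hb]; ring
  obtain ⟨q, hq⟩ : ∃ q : ℝ, q = θ / b := ⟨_, rfl⟩
  have hq0 : 0 < q := by rw [hq]; positivity
  have hq1 : q < 1 := by rw [hq, div_lt_one hb0, hb]; linarith
  have hθ : θ = q * b := by rw [hq, div_mul_cancel₀ _ hb0.ne']
  obtain ⟨L1, hL1⟩ := exists_pow_lt_of_lt_one (show 0 < a / 2 by positivity) hq1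
  refine ⟨L1 + 1, ?_⟩
  intro L hL I hI x y z t ht hx hy hz M hM hlow
  obtain ⟨L', rfl⟩ : ∃ L', L = L' + 1 := ⟨L - 1, by omega⟩
  have hL' : q ^ L' ≤ a / 2 := (pow_le_pow_of_le_one hq0.le hq1.le (by omega)).trans hL1.le
  set o := (L' + 1) * M + 1 with ho
  set g : A := ∑ m ∈ (Finset.range (o + 1)).filter (fun m => M ≤ m), y ^ m * z ^ (o - m) * (o.choose m : A) with hg
  have hgI : g ∈ I := by
    rw [hg]
    apply sum_mem
    intro m hm
    rw [Finset.mem_filter] at hm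
    have : y ^ m * z ^ (o - m) * (o.choose m : A) = (y ^ (m - M) * z ^ (o - m) * (o.choose m : A)) * y ^ M := by
      have : y ^ m = y ^ (m - M) * y ^ M := by rw [← pow_add, Nat.sub_add_cancel hm.2]
      rw [this]; ring
    rw [this]; exact hI _ hM _
  have h1 := hlow g hgI
  have h2 : x ^ o - g = ∑ m ∈ (Finset.range (o + 1)).filter (fun m => ¬ M ≤ m), y ^ m * z ^ (o - m) * (o.choose m : A) := by
    rw [hx, add_pow, ← Finset.sum_filter_add_sum_filter_not _ (fun m => M ≤ m), ← hg, add_sub_cancel_left]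
  have h3 : ∀ m ∈ (Finset.range (o + 1)).filter (fun m => ¬ M ≤ m), ‖y ^ m * z ^ (o - m) * (o.choose m : A)‖ ≤
      t ^ o * q * (a ^ m * b ^ (o - m) * (o.choose m : ℝ)) := by
    intro m hm
    rw [Finset.mem_filter, Finset.mem_range, not_le] at hm
    have hML : L' * m + 1 + m ≤ o := by
      rw [ho]
      have : L' * m ≤ L' * M := Nat.mul_le_mul_left _ hm.2.le
      nlinarith
    have hmo : m ≤ o := by omega
    have e1 : ‖y ^ m‖ ≤ (2 * t) ^ m := (norm_pow_le y m).trans (pow_le_pow_left₀ (norm_nonneg _) hy m)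
    have e2 : ‖z ^ (o - m)‖ ≤ (θ * t) ^ (o - m) := (norm_pow_le z _).trans (pow_le_pow_left₀ (norm_nonneg _) hz _)
    have e3 : ‖y ^ m * z ^ (o - m) * (o.choose m : A)‖ ≤ (o.choose m : ℝ) * ((2 * t) ^ m * (θ * t) ^ (o - m)) := by
      rw [mul_comm _ (o.choose m : A), ← nsmul_eq_mul]
      refine (norm_nsmul_le (n := o.choose m) (a := y ^ m * z ^ (o - m))).trans ?_
      apply mul_le_mul_of_nonneg_left _ (Nat.cast_nonneg _)
      exact (norm_mul_le _ _).trans (mul_le_mul e1 e2 (norm_nonneg _) (by positivity))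
    have e4 : (2 * t) ^ m * (θ * t) ^ (o - m) = t ^ o * (2 ^ m * θ ^ (o - m)) := by
      have : t ^ o = t ^ m * t ^ (o - m) := by rw [← pow_add, Nat.add_sub_cancel' hmo]
      rw [this, mul_pow, mul_pow]; ring
    have e5 : q ^ (o - m) ≤ (a / 2) ^ m * q := by
      calc q ^ (o - m) ≤ q ^ (L' * m + 1) := pow_le_pow_of_le_one hq0.le hq1.le (by omega)
        _ = (q ^ L') ^ m * q := by rw [pow_succ, pow_mul]
        _ ≤ (a / 2) ^ m * q := mul_le_mul_of_nonneg_right (pow_le_pow_left₀ (by positivity) hL' m) hq0.le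
    have e6 : 2 ^ m * θ ^ (o - m) ≤ q * (a ^ m * b ^ (o - m)) := by
      have e7 : (a / 2) ^ m * 2 ^ m = a ^ m := by rw [← mul_pow]; congr 1; ring
      calc 2 ^ m * θ ^ (o - m) = (2 ^ m * b ^ (o - m)) * q ^ (o - m) := by rw [hθ, mul_pow]; ring
        _ ≤ (2 ^ m * b ^ (o - m)) * ((a / 2) ^ m * q) := mul_le_mul_of_nonneg_left e5 (by positivity)
        _ = q * (((a / 2) ^ m * 2 ^ m) * b ^ (o - m)) := by ring
        _ = q * (a ^ m * b ^ (o - m)) := by rw [e7]
    refine e3.trans ?_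
    rw [e4]
    have e8 : 0 ≤ (o.choose m : ℝ) * t ^ o := by positivity
    calc (o.choose m : ℝ) * (t ^ o * (2 ^ m * θ ^ (o - m))) = ((o.choose m : ℝ) * t ^ o) * (2 ^ m * θ ^ (o - m)) := by ring
      _ ≤ ((o.choose m : ℝ) * t ^ o) * (q * (a ^ m * b ^ (o - m))) := mul_le_mul_of_nonneg_left e6 e8
      _ = _ := by ring
  have h4 : ‖x ^ o - g‖ ≤ t ^ o * q * 1 := by
    rw [h2]
    refine (norm_sum_le _ _).trans ((Finset.sum_le_sum h3).trans ?_)
    rw [← Finset.mul_sum]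
    apply mul_le_mul_of_nonneg_left _ (by positivity)
    have e7 : (1 : ℝ) = ∑ m ∈ Finset.range (o + 1), a ^ m * b ^ (o - m) * (o.choose m : ℝ) := by
      rw [← add_pow, hab, one_pow]
    rw [e7]
    exact Finset.sum_le_sum_of_subset_of_nonneg (Finset.filter_subset _ _) fun m _ _ => by positivity
  have h6 : 0 < t ^ o := by positivity
  nlinarith

variable [MeasurableSpace G] [BorelSpace G]

/-- approximation by trigonometric polynomials on a compact set -/
theorem TP_approx {K : Set G} (hK : IsCompact K) (f : G →ᵇ ℂ) (hf : ∀ x, ‖f x‖ ≤ 1) {ε : ℝ} (hε : 0 < ε) :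
    ∃ p ∈ TP G, (∀ x, ‖p x‖ ≤ 1 + ε) ∧ ∀ x ∈ K, ‖p x - f x‖ ≤ ε := by
  haveI : CompactSpace K := isCompact_iff_compactSpace.1 hK
  have hemb : Topology.IsClosedEmbedding (fun x : K => iot (x : G)) :=
    Continuous.isClosedEmbedding (iot_cont.comp continuous_subtype_val) (iot_inj.comp Subtype.val_injective)
  obtain ⟨g, hg⟩ := ContinuousMap.exists_extension' hemb
      (⟨fun x : K => (f x).re, Complex.continuous_re.comp (f.continuous.comp continuous_subtype_val)⟩ : C(K, ℝ))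
  obtain ⟨h, hh⟩ := ContinuousMap.exists_extension' hemb
      (⟨fun x : K => (f x).im, Complex.continuous_im.comp (f.continuous.comp continuous_subtype_val)⟩ : C(K, ℝ))
  have hg' : ∀ x : K, g (iot (x : G)) = (f x).re := fun x => congrFun hg x
  have hh' : ∀ x : K, h (iot (x : G)) = (f x).im := fun x => congrFun hh x
  let Q : BB G → ℂ := fun b => (g b : ℂ) + (h b : ℂ) * Complex.I
  have hQ : Continuous Q := (Complex.continuous_ofReal.comp g.continuous).add
    ((Complex.continuous_ofReal.comp h.continuous).mul continuous_const)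
  let F : C(BB G, ℂ) := ⟨fun b => ((1 / max 1 ‖Q b‖ : ℝ) : ℂ) * Q b, by
    apply Continuous.mul _ hQ
    apply Complex.continuous_ofReal.comp
    apply Continuous.div continuous_const (continuous_const.max hQ.norm)
    intro b
    exact (lt_of_lt_of_le one_pos (le_max_left _ _)).ne'⟩
  have hF1 : ∀ b, ‖F b‖ ≤ 1 := by
    intro b
    change ‖((1 / max 1 ‖Q b‖ : ℝ) : ℂ) * Q b‖ ≤ 1
    rw [norm_mul, Complex.norm_real, Real.norm_eq_abs, abs_of_nonneg (by positivity), one_div,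
      inv_mul_le_iff₀ (lt_of_lt_of_le one_pos (le_max_left _ _)), mul_one]
    exact le_max_right _ _
  have hFf : ∀ x ∈ K, F (iot x) = f x := by
    intro x hx
    have h1 : Q (iot x) = f x := by
      change (g (iot x) : ℂ) + (h (iot x) : ℂ) * Complex.I = f x
      rw [hg' ⟨x, hx⟩, hh' ⟨x, hx⟩]
      exact Complex.re_add_im (f x)
    change ((1 / max 1 ‖Q (iot x)‖ : ℝ) : ℂ) * Q (iot x) = f x
    rw [h1, max_eq_left (hf x)]
    simp
  obtain ⟨P, hP, hP2⟩ := SA_dense F hε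
  have hPx : ∀ b, ‖P b - F b‖ ≤ ε := by
    intro b
    have := ((P - F).norm_coe_le_norm b).trans hP2.le
    simpa using this
  refine ⟨pull P, hP, fun x => ?_, fun x hx => ?_⟩
  · have h3 := norm_add_le (P (iot x) - F (iot x)) (F (iot x))
    rw [sub_add_cancel] at h3
    change ‖P (iot x)‖ ≤ _
    linarith [hPx (iot x), hF1 (iot x)]
  · rw [← hFf x hx]
    exact hPx (iot x)

omit [MeasurableSpace G] [BorelSpace G] in
theorem supp_of_in {u0 : C₀(G, ℂ)} {μ : Meas G} (hin : bc u0 • μ = μ) : Supp (tsupport u0) μ := by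
  have h := supp_of_act (K := tsupport u0) (b := bc u0) (fun x hx => by
    rw [bc_apply]; exact image_eq_zero_of_notMem_tsupport hx) μ
  rwa [hin] at h

omit [MeasurableSpace G] [BorelSpace G] in
theorem chr_one (χ : Chr G) : χ.b • (1 : Meas G) = 1 := by
  ext f
  rw [act_apply, Meas.one_apply, Meas.one_apply, bm_apply, Chr.b_apply, χ.map_zero, one_mul]

/-- vanishing of homomorphisms is inherited by all weights -/
theorem hom_act {u0 : C₀(G, ℂ)} (hu0 : Cut u0) {μ : Meas G} (hin : bc u0 • μ = μ)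
    (h : ∀ φ : Meas G →ₐ[ℂ] ℂ, (∀ ξ ∈ L1c G, φ ξ = 0) → φ μ = 0)
    (φ : Meas G →ₐ[ℂ] ℂ) (hφ : ∀ ξ ∈ L1c G, φ ξ = 0) (f : G →ᵇ ℂ) : φ (f • μ) = 0 := by
  have h1 : ∀ χ : Chr G, φ (χ.b • μ) = 0 := by
    intro χ
    have key := h (AlgHom.ofLinearMap (φ.toLinearMap ∘ₗ (actL χ.b).toLinearMap)
      (by change φ (χ.b • (1 : Meas G)) = 1; rw [chr_one, map_one])
      (fun a b => by change φ (χ.b • (a * b)) = φ (χ.b • a) * φ (χ.b • b); rw [χ.act_mul, map_mul]))
      (fun ξ hξ => hφ _ (act_mem hξ χ.b))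
    exact key
  have h2 : ∀ p ∈ TP G, φ (p • μ) = 0 := by
    intro p hp
    induction hp using Submodule.span_induction with
    | mem x hx => obtain ⟨χ, rfl⟩ := hx; exact h1 χ
    | zero => rw [zero_smul, map_zero]
    | add x y _ _ hx hy => rw [add_smul, map_add, hx, hy, add_zero]
    | smul c x _ hx => rw [csmul_act, map_smul, hx, smul_zero]
  have hs := supp_of_in hin
  have h3 : ∀ f : G →ᵇ ℂ, (∀ x, ‖f x‖ ≤ 1) → φ (f • μ) = 0 := by
    intro f hf
    have h4 : ∀ ε > 0, ‖φ (f • μ)‖ ≤ ε * ‖μ‖ := by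
      intro ε hε
      obtain ⟨p, hp, _, hp2⟩ := TP_approx (K := tsupport u0) hu0.cs f hf hε
      have h5 : φ (f • μ) = φ ((f - p) • μ) := by rw [sub_smul, map_sub, h2 p hp, sub_zero]
      rw [h5]
      refine (hom_le φ _).trans ?_
      apply hs.act_bound hε.le
      intro x hx
      have := hp2 x hx
      rw [← norm_neg, neg_sub] at this
      exact this
    by_contra hne
    have hpos : 0 < ‖φ (f • μ)‖ := norm_pos_iff.2 hne
    have h6 := h4 (‖φ (f • μ)‖ / (2 * (‖μ‖ + 1))) (by positivity)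
    have h7 : ‖φ (f • μ)‖ / (2 * (‖μ‖ + 1)) * ‖μ‖ < ‖φ (f • μ)‖ := by
      rw [div_mul_eq_mul_div, div_lt_iff₀ (by positivity)]
      nlinarith [norm_nonneg μ]
    linarith
  have h8 : f = ((‖f‖ + 1 : ℝ) : ℂ) • (((1 / (‖f‖ + 1) : ℝ) : ℂ) • f) := by
    have hne : ((‖f‖ + 1 : ℝ) : ℂ) ≠ 0 := by
      have := norm_nonneg f
      exact_mod_cast (by linarith : (‖f‖ + 1 : ℝ) ≠ 0)
    rw [smul_smul, Complex.ofReal_div, Complex.ofReal_one, mul_one_div, div_self hne, one_smul]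
  rw [h8, csmul_act, map_smul, h3, smul_zero]
  intro x
  have h9 := f.norm_coe_le_norm x
  have h10 := norm_nonneg f
  change ‖((1 / (‖f‖ + 1) : ℝ) : ℂ) * f x‖ ≤ 1
  rw [norm_mul, Complex.norm_real, Real.norm_eq_abs, abs_of_nonneg (by positivity), one_div,
    inv_mul_le_iff₀ (by positivity)]
  linarith

omit [MeasurableSpace G] [BorelSpace G] in
theorem Pos_add {μ ν : Meas G} (h : Pos μ) (h' : Pos ν) : Pos (μ + ν) := fun g hg => by
  rw [Meas.add_apply]; exact add_nonneg (h g hg) (h' g hg)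

omit [MeasurableSpace G] [BorelSpace G] in
theorem Pos_pow {μ : Meas G} (h : Pos μ) (n : ℕ) : Pos (μ ^ n) := by
  induction n with
  | zero => rw [pow_zero]; exact pos_one
  | succ n ih => rw [pow_succ]; exact ih.mul h

omit [MeasurableSpace G] [BorelSpace G] in
/-- extremal lower bounds pass to smaller positive measures -/
theorem low_dom {u0 : C₀(G, ℂ)} (hu0 : Cut u0) {α β : Meas G} (hα : Pos α) (hβ : Pos β) (hαβ : Pos (α - β))
    (hinα : bc u0 • α = α) (hinβ : bc u0 • β = β) {o : ℕ} {g : Meas G} (hlow : ‖α‖ ^ o ≤ ‖α ^ o - g‖) :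
    ‖β‖ ^ o ≤ ‖β ^ o - g‖ := by
  obtain ⟨w, hw, hw0, hws⟩ := exists_w hu0
  have hmass : ∀ {γ : Meas G}, Pos γ → bc u0 • γ = γ → (γ ^ o) (w o) = ((‖γ‖ ^ o : ℝ) : ℂ) := by
    intro γ hγ hinγ
    have h1 := prodl_mass hw0 hws hinγ (List.replicate o (1 : G →ᵇ ℂ))
    rw [List.length_replicate, List.map_replicate, List.prod_replicate, prodl_replicate, one_smul,
      hγ.norm_eq hu0 hinγ] at h1
    rw [h1]; push_cast; rfl
  have hin2 : ∀ {γ : Meas G}, bc u0 • γ = γ → bc (w o) • (γ ^ o) = γ ^ o := by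
    intro γ hinγ
    have h1 := prodl_in hw0 hws hinγ (List.replicate o (1 : G →ᵇ ℂ))
    rwa [List.length_replicate, prodl_replicate, one_smul] at h1
  have hpos : Pos (α ^ o - β ^ o) := by
    clear hlow hmass hin2
    induction o with
    | zero => rw [pow_zero, pow_zero, sub_self]; exact fun g hg => le_rfl
    | succ n ih =>
      have : α ^ (n + 1) - β ^ (n + 1) = (α ^ n - β ^ n) * α + β ^ n * (α - β) := by ring
      rw [this]
      exact Pos_add (ih.mul hα) ((Pos_pow hβ n).mul hαβ)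
  have h1 : ((‖α ^ o - β ^ o‖ : ℝ) : ℂ) = ((‖α‖ ^ o - ‖β‖ ^ o : ℝ) : ℂ) := by
    rw [← hpos.norm_eq (hw o) (by rw [smul_sub, hin2 hinα, hin2 hinβ]), Meas.sub_apply, hmass hα hinα, hmass hβ hinβ]
    push_cast; rfl
  have h2 : ‖α ^ o - β ^ o‖ = ‖α‖ ^ o - ‖β‖ ^ o := by exact_mod_cast h1
  have h3 : α ^ o - g = (β ^ o - g) + (α ^ o - β ^ o) := by ring
  have h4 := norm_add_le (β ^ o - g) (α ^ o - β ^ o)
  rw [← h3] at h4
  linarith

end
end Pool.Agent.Y590.RadN
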