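import Mathlib
import Pool.Agent.Y590.RadN.A
import Pool.Agent.Y590.RadN.B
/-! Distance from the nilpotents, diffuseness. -/
set_option autoImplicit false
set_option linter.unusedSectionVars false
set_option linter.style.haveILetI false
set_option linter.unusedVariables false
open scoped ZeroAtInfty BoundedContinuousFunction ComplexOrder Topology Pointwise
open MeasureTheory Filter Set

namespace Pool.Agent.Y590.RadN
open Pool.Agent.Helper550.Rad
noncomputable section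

universe u
variable {G : Type u} [AddCommGroup G] [TopologicalSpace G] [IsTopologicalAddGroup G]
  [T2Space G] [LocallyCompactSpace G]

theorem sum_act_norm_le1 {m : ℕ} {p : Fin m → (G →ᵇ ℂ)} {C : ℝ} (hC : 0 ≤ C) (hp : ∀ x, ∑ i, ‖p i x‖ ≤ C)
    (ρ : Meas G) : ∑ i, ‖p i • ρ‖ ≤ C * ‖ρ‖ := by
  have key : ∀ ε > 0, ∑ i, ‖p i • ρ‖ ≤ C * ‖ρ‖ + ε := by
    intro ε hε
    have h1 : ∀ i, ∃ f : C₀(G, ℂ), ‖f‖ ≤ 1 ∧ 0 ≤ (p i • ρ) f ∧ ‖p i • ρ‖ - ε / (m + 1) ≤ ((p i • ρ) f).re :=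
      fun i => (p i • ρ).exists_near (by positivity)
    choose f hf1 _ hf3 using h1
    have h2 : ‖∑ i, bm (p i) (f i)‖ ≤ C := by
      rw [c0_norm_le hC]
      intro x
      rw [c0_sum_apply]
      refine (norm_sum_le _ _).trans (le_trans (Finset.sum_le_sum fun i _ => ?_) (hp x))
      rw [bm_apply, norm_mul]
      have := (c0_apply_le (f i) x).trans (hf1 i)
      nlinarith [norm_nonneg (p i x)]
    have h3 : ∑ i, (p i • ρ) (f i) = ρ (∑ i, bm (p i) (f i)) := by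
      rw [map_sum]; rfl
    have h4 := (Complex.re_le_norm _).trans (Meas.le_of (le_refl ‖ρ‖) h2)
    rw [← h3, Complex.re_sum] at h4
    have h5 : ∑ i, (‖p i • ρ‖ - ε / (m + 1)) ≤ ∑ i, ((p i • ρ) (f i)).re := Finset.sum_le_sum fun i _ => hf3 i
    rw [Finset.sum_sub_distrib, Finset.sum_const, Finset.card_univ, Fintype.card_fin, nsmul_eq_mul] at h5
    have h6 : (m : ℝ) * (ε / (m + 1)) ≤ ε := by
      rw [mul_div_assoc', div_le_iff₀ (by positivity)]
      nlinarith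
    linarith
  by_contra hcon
  push Not at hcon
  have := key ((∑ i, ‖p i • ρ‖ - C * ‖ρ‖) / 2) (by linarith)
  linarith

section s1
variable [MeasurableSpace G] [BorelSpace G]

theorem final_nil1 {u0 : C₀(G, ℂ)} (hu0 : Cut u0) {μ : Meas G} (hpos : Pos μ) (hin : bc u0 • μ = μ)
    (h : ∀ k : ℕ, ∃ (m : ℕ) (u p : Fin m → (G →ᵇ ℂ)) (N : ℕ), (∀ i, U01 (u i)) ∧ (∀ x ∈ tsupport u0, ∑ i, u i x = 1) ∧
      (∀ i, ∀ n, 1 ≤ n → ∀ ν : Meas G, ν ^ n ∈ L1c G → (p i • ν) ^ (N * n) ∈ L1c G) ∧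
      (∀ x, ∑ i, ‖p i x‖ ≤ 1 + 1 / (k + 1)) ∧ (∀ i, ∀ x ∈ tsupport u0, ‖p i x - u i x‖ ≤ 1 / ((k + 1) * (m + 1))) ∧
      ∀ i, ∀ g ∈ L1c G, ‖u i • μ‖ ^ ((k + 1) * (N * k) + 1) ≤ ‖(u i • μ) ^ ((k + 1) * (N * k) + 1) - g‖)
    {f : G →ᵇ ℂ} (hf : U01 f) {ν : Meas G} {n : ℕ} (hn1 : 1 ≤ n) (hν : ν ^ n ∈ L1c G) :
    ‖f • μ‖ ≤ ‖f • μ - ν‖ := by
  by_contra hlt
  push Not at hlt
  obtain ⟨s, hs⟩ : ∃ s : ℝ, s = ‖f • μ‖ := ⟨_, rfl⟩
  obtain ⟨d, hd⟩ : ∃ d : ℝ, d = ‖f • μ - ν‖ := ⟨_, rfl⟩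
  rw [← hs, ← hd] at hlt
  have hd0 : 0 ≤ d := by rw [hd]; exact norm_nonneg _
  have hs0 : 0 < s := by linarith
  obtain ⟨θ, hθ⟩ : ∃ θ : ℝ, θ = (s + d) / (2 * s) := ⟨_, rfl⟩
  have hθ0 : 0 < θ := by rw [hθ]; positivity
  have hθ1 : θ < 1 := by rw [hθ, div_lt_one (by positivity)]; linarith
  have hθs : θ * s = (s + d) / 2 := by rw [hθ]; field_simp
  obtain ⟨L0, hL0⟩ := ring_est1 (A := Meas G) hθ0 hθ1
  obtain ⟨k0, hk0⟩ := exists_nat_gt (2 * (s + d) / (s - d))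
  obtain ⟨k, hk⟩ : ∃ k : ℕ, k = k0 + L0 + n := ⟨_, rfl⟩
  have hkk : (s + d) / (k + 1) < (s - d) / 2 := by
    rw [div_lt_iff₀ (by positivity)]
    rw [div_lt_iff₀ (by linarith)] at hk0
    have h1 : (k0 : ℝ) ≤ k := by
      rw [hk]; push_cast
      linarith [Nat.cast_nonneg (α := ℝ) L0, Nat.cast_nonneg (α := ℝ) n]
    nlinarith
  obtain ⟨m, u, p, N, u1, us, n1, p2, pu, hlow⟩ := h k
  have hinf : bc u0 • (f • μ) = f • μ := by rw [act_comm, hin]
  have hsupp := supp_of_in hinf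
  set ρ : Fin m → Meas G := fun i => u i • (f • μ) - p i • ν with hρ
  have hρn : ∀ i, ‖ρ i‖ ≤ 1 / ((k + 1) * (m + 1)) * s + ‖p i • (f • μ - ν)‖ := by
    intro i
    have h1 : ρ i = (u i - p i) • (f • μ) + p i • (f • μ - ν) := by
      rw [sub_smul, smul_sub, sub_add_sub_cancel]
    rw [h1, hs]
    refine (norm_add_le _ _).trans (add_le_add ?_ le_rfl)
    apply hsupp.act_bound (by positivity)
    intro x hx
    have := pu i x hx
    rw [← norm_neg, neg_sub] at this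
    exact this
  have hsumρ : ∑ i, ‖ρ i‖ ≤ 1 / (k + 1) * s + (1 + 1 / (k + 1)) * d := by
    refine (Finset.sum_le_sum fun i _ => hρn i).trans ?_
    rw [Finset.sum_add_distrib, Finset.sum_const, Finset.card_univ, Fintype.card_fin, nsmul_eq_mul]
    apply add_le_add _ (by rw [hd]; exact sum_act_norm_le1 (by positivity) p2 _)
    rw [← mul_assoc]
    apply mul_le_mul_of_nonneg_right _ hs0.le
    rw [mul_one_div, div_le_div_iff₀ (by positivity) (by positivity)]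
    have : (0 : ℝ) ≤ k := Nat.cast_nonneg k
    nlinarith
  have hsumu : s ≤ ∑ i, ‖u i • (f • μ)‖ := by
    have := norm_sum_le Finset.univ (fun i => u i • (f • μ))
    rwa [parts_eq hinf us, ← hs] at this
  have hex : ∃ i, ‖ρ i‖ < θ * ‖u i • (f • μ)‖ := by
    by_contra hcon
    push Not at hcon
    have h1 : ∑ i, θ * ‖u i • (f • μ)‖ ≤ ∑ i, ‖ρ i‖ := Finset.sum_le_sum fun i _ => hcon i
    rw [← Finset.mul_sum] at h1
    have h2 : θ * s ≤ θ * ∑ i, ‖u i • (f • μ)‖ := mul_le_mul_of_nonneg_left hsumu hθ0.le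
    have h3 : 1 / (k + 1) * s + (1 + 1 / (k + 1)) * d = (s + d) / (k + 1) + d := by ring
    linarith
  obtain ⟨i, hi⟩ := hex
  have ht : 0 < ‖u i • (f • μ)‖ := by
    by_contra h0
    push Not at h0
    have h1 := norm_nonneg (ρ i)
    have h2 : ‖u i • (f • μ)‖ = 0 := le_antisymm h0 (norm_nonneg _)
    rw [h2, mul_zero] at hi
    linarith
  have hνk : ν ^ k ∈ L1c G := by
    have : ν ^ k = ν ^ (k - n) * ν ^ n := by rw [← pow_add]; congr 1; omega
    rw [this]; exact mul_mem hν _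
  have hzt : ‖ρ i‖ ≤ ‖u i • (f • μ)‖ := by nlinarith
  refine hL0 (k + 1) (by omega) ((L1c G).toAddSubgroup) (fun x hx a => mul_mem hx a) ht
    (show u i • (f • μ) = p i • ν + ρ i by rw [hρ]; simp) ?_ hi.le (n1 i k (by omega) ν hνk) ?_
  · have h1 : p i • ν = u i • (f • μ) - ρ i := by rw [hρ]; simp
    rw [h1]
    have := norm_sub_le (u i • (f • μ)) (ρ i)
    linarith
  · intro g hg
    apply low_dom hu0 (hpos.act fun x => (u1 i x).1)
      ((hpos.act fun x => (hf x).1).act fun x => (u1 i x).1) _ (by rw [act_comm, hin]) (by rw [act_comm, hinf])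
      (hlow i g hg)
    have h1 : u i • μ - u i • (f • μ) = (u i * (1 - f)) • μ := by
      rw [mul_smul, sub_smul, one_smul, smul_sub]
    rw [h1]
    exact hpos.act fun x => ((u1 i).mul hf.one_sub x).1

end s1

/-- the function `1/(|f| + ε)` -/
def rec1 (f : G →ᵇ ℂ) {ε : ℝ} (hε : 0 < ε) : G →ᵇ ℂ :=
  BoundedContinuousFunction.ofNormedAddCommGroup (fun x => ((1 / (‖f x‖ + ε) : ℝ) : ℂ))
    (by
      apply Complex.continuous_ofReal.comp
      apply Continuous.div continuous_const (f.continuous.norm.add continuous_const)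
      intro x
      exact (show (0 : ℝ) < ‖f x‖ + ε by have := norm_nonneg (f x); linarith).ne') (1 / ε)
    (fun x => by
      rw [Complex.norm_real, Real.norm_eq_abs, abs_of_nonneg (by positivity)]
      apply one_div_le_one_div_of_le hε
      linarith [norm_nonneg (f x)])

theorem rec1_apply (f : G →ᵇ ℂ) {ε : ℝ} (hε : 0 < ε) (x : G) : rec1 f hε x = ((1 / (‖f x‖ + ε) : ℝ) : ℂ) := rfl

theorem rec1_star_norm (f : G →ᵇ ℂ) {ε : ℝ} (hε : 0 < ε) (x : G) : ‖(rec1 f hε * star f) x‖ ≤ 1 := by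
  change ‖rec1 f hε x * star (f x)‖ ≤ 1
  rw [norm_mul, norm_star, rec1_apply, Complex.norm_real, Real.norm_eq_abs, abs_of_nonneg (by positivity),
    one_div, inv_mul_le_iff₀ (by positivity)]
  linarith

theorem rec1_self_norm (f : G →ᵇ ℂ) {ε : ℝ} (hε : 0 < ε) (x : G) : ‖(rec1 f hε * f) x‖ ≤ 1 := by
  change ‖rec1 f hε x * (f x)‖ ≤ 1
  rw [norm_mul, rec1_apply, Complex.norm_real, Real.norm_eq_abs, abs_of_nonneg (by positivity),
    one_div, inv_mul_le_iff₀ (by positivity)]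
  linarith

theorem star_mul_self_val (z : ℂ) : star z * z = ((‖z‖ ^ 2 : ℝ) : ℂ) := by
  have := Complex.normSq_eq_conj_mul_self (z := z)
  rw [← Complex.normSq_eq_norm_sq]
  exact this.symm

theorem rec1_val (f : G →ᵇ ℂ) {ε : ℝ} (hε : 0 < ε) (x : G) :
    (rec1 f hε * star f * f) x = ((‖f x‖ ^ 2 / (‖f x‖ + ε) : ℝ) : ℂ) := by
  change rec1 f hε x * star (f x) * f x = _
  rw [mul_assoc, star_mul_self_val, rec1_apply, ← Complex.ofReal_mul]
  congr 1
  ring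

theorem rec1_near (f : G →ᵇ ℂ) {ε : ℝ} (hε : 0 < ε) (x : G) :
    ‖(f - (rec1 f hε * f) * (rec1 f hε * star f * f)) x‖ ≤ 2 * ε := by
  have h1 : (f - (rec1 f hε * f) * (rec1 f hε * star f * f)) x =
      f x * ((1 - ‖f x‖ ^ 2 / (‖f x‖ + ε) ^ 2 : ℝ) : ℂ) := by
    change f x - (rec1 f hε x * f x) * ((rec1 f hε * star f * f) x) = _
    rw [rec1_val, rec1_apply]
    push_cast
    have : ((‖f x‖ : ℂ) + ε) ≠ 0 := by
      have h0 : (‖f x‖ + ε : ℝ) ≠ 0 := by positivity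
      exact_mod_cast h0
    field_simp
  rw [h1, norm_mul, Complex.norm_real, Real.norm_eq_abs]
  have ha := norm_nonneg (f x)
  have h2 : 1 - ‖f x‖ ^ 2 / (‖f x‖ + ε) ^ 2 = ε * (2 * ‖f x‖ + ε) / (‖f x‖ + ε) ^ 2 := by
    field_simp; ring
  rw [h2, abs_of_nonneg (by positivity), mul_div_assoc', div_le_iff₀ (by positivity)]
  nlinarith [mul_nonneg ha hε.le, mul_pos hε hε]

theorem near_le (f : G →ᵇ ℂ) (μ : Meas G) {ε : ℝ} (hε : 0 < ε) :
    ‖f • μ‖ ≤ ‖(rec1 f hε * star f * f) • μ‖ + 2 * ε * ‖μ‖ := by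
  have h1 : f • μ = (rec1 f hε * f) • ((rec1 f hε * star f * f) • μ) +
      (f - (rec1 f hε * f) * (rec1 f hε * star f * f)) • μ := by
    rw [sub_smul, mul_smul (rec1 f hε * f) (rec1 f hε * star f * f) μ]; abel
  rw [h1]
  refine (norm_add_le _ _).trans (add_le_add ?_ ?_)
  · have h2 : ‖rec1 f hε * f‖ ≤ 1 := (BoundedContinuousFunction.norm_le zero_le_one).2 (rec1_self_norm f hε)
    have := act_norm_le h2 ((rec1 f hε * star f * f) • μ)
    linarith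
  · apply act_norm_le
    exact (BoundedContinuousFunction.norm_le (by positivity)).2 (rec1_near f hε)

theorem sq_zero {f : G →ᵇ ℂ} {μ : Meas G} (h : (star f * f) • μ = 0) : f • μ = 0 := by
  by_contra hne
  have hpos : 0 < ‖f • μ‖ := norm_pos_iff.2 hne
  have h1 := near_le f μ (show 0 < ‖f • μ‖ / (4 * (‖μ‖ + 1)) by positivity)
  rw [mul_assoc (rec1 f _), mul_smul, h, smul_zero, norm_zero, zero_add] at h1
  have h7 : 2 * (‖f • μ‖ / (4 * (‖μ‖ + 1))) * ‖μ‖ < ‖f • μ‖ := by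
    rw [mul_div_assoc', div_mul_eq_mul_div, div_lt_iff₀ (by positivity)]
    nlinarith [norm_nonneg μ]
  linarith

section s2
variable [MeasurableSpace G] [BorelSpace G]

theorem final_nil2 {u0 : C₀(G, ℂ)} (hu0 : Cut u0) {μ : Meas G} (hpos : Pos μ) (hin : bc u0 • μ = μ)
    (h : ∀ f : G →ᵇ ℂ, U01 f → ∀ ν : Meas G, ∀ n : ℕ, 1 ≤ n → ν ^ n ∈ L1c G → ‖f • μ‖ ≤ ‖f • μ - ν‖)
    (f : G →ᵇ ℂ) {ν : Meas G} {n : ℕ} (hn1 : 1 ≤ n) (hν : ν ^ n ∈ L1c G) :
    ‖f • μ‖ ≤ ‖f • μ - ν‖ := by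
  by_contra hlt
  push Not at hlt
  obtain ⟨η, hη⟩ : ∃ η : ℝ, η = ‖f • μ‖ - ‖f • μ - ν‖ := ⟨_, rfl⟩
  have hη0 : 0 < η := by linarith
  obtain ⟨ε, hεd⟩ : ∃ ε : ℝ, ε = η / (4 * (‖μ‖ + 1)) := ⟨_, rfl⟩
  have hε : 0 < ε := by rw [hεd]; positivity
  have hε2 : 2 * ε * ‖μ‖ ≤ η / 2 := by
    rw [hεd, mul_div_assoc', div_mul_eq_mul_div, div_le_div_iff₀ (by positivity) (by positivity)]
    nlinarith [norm_nonneg μ]
  obtain ⟨δ, hδd⟩ : ∃ δ : ℝ, δ = min 1 (η / (4 * (‖ν‖ + 3))) := ⟨_, rfl⟩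
  have hδ : 0 < δ := by rw [hδd]; exact lt_min one_pos (by positivity)
  have hδ1 : δ ≤ 1 := by rw [hδd]; exact min_le_left _ _
  have hδ2 : δ * (‖ν‖ + 3) ≤ η / 4 := by
    have h1 : δ ≤ η / (4 * (‖ν‖ + 3)) := by rw [hδd]; exact min_le_right _ _
    rw [le_div_iff₀ (by positivity)] at h1
    linarith
  obtain ⟨K, v, hK, hv, hsK, hvn⟩ := exists_supp ν hδ
  obtain ⟨p, hp, hp1, hp2⟩ := TP_approx hK (rec1 f hε * star f) (rec1_star_norm f hε) hδ
  obtain ⟨N, hN⟩ := TP_pred hp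
  have hpn : (p • ν) ^ (N * n + 1) ∈ L1c G := by
    rw [pow_succ, mul_comm]
    exact mul_mem (hN n hn1 ν hν) _
  have D1 : ‖(rec1 f hε * star f) • ν - p • ν‖ ≤ δ * (‖ν‖ + 3) := by
    have e1 : (rec1 f hε * star f) • ν - p • ν = (rec1 f hε * star f - p) • (ν - bc v • ν) +
        (rec1 f hε * star f - p) • (bc v • ν) := by
      rw [smul_sub, sub_add_cancel, sub_smul]
    rw [e1]
    have e2 : ‖(rec1 f hε * star f - p) • (ν - bc v • ν)‖ ≤ 3 * δ := by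
      have e3 : ‖rec1 f hε * star f - p‖ ≤ 3 := by
        rw [BoundedContinuousFunction.norm_le (by norm_num)]
        intro x
        have e4 := norm_sub_le ((rec1 f hε * star f) x) (p x)
        have e5 := rec1_star_norm f hε x
        have e6 := hp1 x
        have e7 : (rec1 f hε * star f - p) x = (rec1 f hε * star f) x - p x := rfl
        rw [e7]
        linarith
      refine (act_norm_le e3 _).trans ?_
      exact mul_le_mul_of_nonneg_left hvn (by norm_num)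
    have e8 : ‖(rec1 f hε * star f - p) • (bc v • ν)‖ ≤ δ * ‖bc v • ν‖ := by
      apply hsK.act_bound hδ.le
      intro x hx
      have := hp2 x hx
      rw [← norm_neg, neg_sub] at this
      exact this
    have e9 : δ * ‖bc v • ν‖ ≤ δ * ‖ν‖ := mul_le_mul_of_nonneg_left (hv.U01.act_le ν) hδ.le
    have := norm_add_le ((rec1 f hε * star f - p) • (ν - bc v • ν)) ((rec1 f hε * star f - p) • (bc v • ν))
    linarith
  have D2 : ‖(rec1 f hε * star f * f) • μ‖ ≤ ‖(rec1 f hε * star f * f) • μ - p • ν‖ := by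
    obtain ⟨c, hc⟩ : ∃ c : ℝ, c = 1 / (‖f‖ + 1) := ⟨_, rfl⟩
    have hc0 : 0 < c := by rw [hc]; positivity
    have hU : U01 ((c : ℂ) • (rec1 f hε * star f * f)) := by
      intro x
      have e1 : ((c : ℂ) • (rec1 f hε * star f * f)) x = ((c * (‖f x‖ ^ 2 / (‖f x‖ + ε)) : ℝ) : ℂ) := by
        change (c : ℂ) * (rec1 f hε * star f * f) x = _
        rw [rec1_val]; push_cast; rfl
      rw [e1]
      have e2 := f.norm_coe_le_norm x
      have e3 := norm_nonneg (f x)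
      have e4 : ‖f x‖ ^ 2 / (‖f x‖ + ε) ≤ ‖f x‖ := by
        rw [div_le_iff₀ (by positivity)]; nlinarith
      have e5 : c * (‖f x‖ ^ 2 / (‖f x‖ + ε)) ≤ 1 := by
        rw [hc, one_div, inv_mul_le_iff₀ (by positivity)]
        linarith
      constructor
      · have : 0 ≤ c * (‖f x‖ ^ 2 / (‖f x‖ + ε)) := by positivity
        exact_mod_cast this
      · exact_mod_cast e5
    have e6 : ((c : ℂ) • (p • ν)) ^ (N * n + 1) ∈ L1c G := by
      rw [smul_pow]; exact (L1c G).smul_mem _ hpn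
    have e7 := h _ hU ((c : ℂ) • (p • ν)) (N * n + 1) (by omega) e6
    rw [csmul_act, ← smul_sub, norm_smul (c : ℂ), norm_smul (c : ℂ), Complex.norm_real, Real.norm_eq_abs, abs_of_pos hc0] at e7
    exact le_of_mul_le_mul_left e7 hc0
  have D3 : (rec1 f hε * star f * f) • μ - p • ν = (rec1 f hε * star f) • (f • μ - ν) +
      ((rec1 f hε * star f) • ν - p • ν) := by
    rw [smul_sub, mul_smul (rec1 f hε * star f) f μ]; abel
  have D4 : ‖(rec1 f hε * star f) • (f • μ - ν)‖ ≤ ‖f • μ - ν‖ := by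
    have h2 : ‖rec1 f hε * star f‖ ≤ 1 := (BoundedContinuousFunction.norm_le zero_le_one).2 (rec1_star_norm f hε)
    have := act_norm_le h2 (f • μ - ν)
    linarith
  have D5 := near_le f μ hε
  have D6 := norm_add_le ((rec1 f hε * star f) • (f • μ - ν)) ((rec1 f hε * star f) • ν - p • ν)
  rw [← D3] at D6
  linarith

theorem diffuse {u0 : C₀(G, ℂ)} {μ : Meas G} (hin : bc u0 • μ = μ)
    (h : ∀ ε > 0, ∃ (m : ℕ) (u : Fin m → (G →ᵇ ℂ)) (R : Fin m → Finset (Fin m)) (J : ℕ), (∀ i, U01 (u i)) ∧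
      (∀ x ∈ tsupport u0, ∑ i, u i x = 1) ∧ (∀ i, ‖(∑ j ∈ R i, u j) • μ‖ ≤ ε) ∧
      (∀ i j, j ∉ R i → (u i • μ) * ((u j • μ) * μ ^ J) ∈ L1c G) ∧
      ∃ V ∈ 𝓝 (0 : G), ∀ ψ, Small V ψ → ∀ i j, j ∉ R i → u i * ψ = 0 ∨ u j * ψ = 0) :
    ∀ ε > 0, ∃ V ∈ 𝓝 (0 : G), ∀ ψ : G →ᵇ ℂ, U01 ψ → Small V ψ → ‖ψ • μ‖ ≤ ε := by
  intro ε hε
  obtain ⟨m, u, R, J, u1, us, hR, _, V, hV, hd⟩ := h ε hε
  refine ⟨V, hV, fun ψ hψ hsm => ?_⟩
  have hsupp := supp_of_in hin
  by_cases hy : ∃ y ∈ tsupport u0, ψ y ≠ 0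
  · obtain ⟨y, hy, hψy⟩ := hy
    have : ∃ i, u i y ≠ 0 := by
      by_contra hcon
      push Not at hcon
      have hsx := us y hy
      rw [Finset.sum_eq_zero (fun i _ => hcon i)] at hsx
      exact zero_ne_one hsx
    obtain ⟨i, hi⟩ := this
    have h1 : ∀ j, j ∉ R i → u j * ψ = 0 := by
      intro j hj
      rcases hd ψ hsm i j hj with h2 | h2
      · exact absurd (DFunLike.congr_fun h2 y) (mul_ne_zero hi hψy)
      · exact h2
    have h3 : ψ • μ = ψ • ((∑ j ∈ R i, u j) • μ) := by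
      rw [← mul_smul]
      apply hsupp.act_eq
      intro x hx
      have h4 : ∑ j, u j x * ψ x = ψ x := by rw [← Finset.sum_mul, us x hx, one_mul]
      have h5 : ∑ j ∈ R i, u j x * ψ x = ∑ j, u j x * ψ x :=
        Finset.sum_subset (Finset.subset_univ _) fun j _ hj => DFunLike.congr_fun (h1 j hj) x
      change ψ x = ψ x * (∑ j ∈ R i, u j) x
      rw [BoundedContinuousFunction.sum_apply, mul_comm, Finset.sum_mul, h5, h4]
    rw [h3]
    exact (hψ.act_le _).trans (hR i)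
  · push Not at hy
    have : ψ • μ = (0 : G →ᵇ ℂ) • μ := hsupp.act_eq (fun x hx => by rw [hy x hx]; rfl)
    rw [this, zero_smul, norm_zero]; exact hε.le

end s2

end
end Pool.Agent.Y590.RadN
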