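import Mathlib
import Pool.Agent.Y590.RadN.C
/-! The closed span of the weights of a measure. -/
set_option autoImplicit false
set_option linter.unusedSectionVars false
set_option linter.style.haveILetI false
set_option linter.unusedVariables false
open scoped ZeroAtInfty BoundedContinuousFunction ComplexOrder Topology Pointwise
open MeasureTheory Filter Set

namespace Pool.Agent.Y590.RadN
open Pool.Agent.Helper550.Rad
noncomputable section

universe u
variable {G : Type u} [AddCommGroup G] [TopologicalSpace G] [IsTopologicalAddGroup G]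
  [T2Space G] [LocallyCompactSpace G]

/-- the points of the support -/
def SuppPts (μ : Meas G) : Set G :=
  {x : G | ∀ U ∈ 𝓝 x, ∃ f : G →ᵇ ℂ, U01 f ∧ (∀ y, f y ≠ 0 → y ∈ U) ∧ f • μ ≠ 0}

section s0
variable [MeasurableSpace G] [BorelSpace G]

theorem infinite_supp {u0 : C₀(G, ℂ)} (hu0 : Cut u0) {μ : Meas G} (hin : bc u0 • μ = μ) (hμ : μ ≠ 0)
    (hd : ∀ ε > 0, ∃ V ∈ 𝓝 (0 : G), ∀ ψ : G →ᵇ ℂ, U01 ψ → Small V ψ → ‖ψ • μ‖ ≤ ε) : (SuppPts μ).Infinite := by
  classical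
  intro hfin
  have hpos : 0 < ‖μ‖ := norm_pos_iff.2 hμ
  obtain ⟨ε, hεd⟩ : ∃ ε : ℝ, ε = ‖μ‖ / (2 * (hfin.toFinset.card + 1)) := ⟨_, rfl⟩
  have hε : 0 < ε := by rw [hεd]; positivity
  obtain ⟨V, hV, hV2⟩ := hd ε hε
  obtain ⟨P, hP, hPP⟩ := exists_nhds_half_neg hV
  have hnb : ∀ x : G, ∃ U : Set G, IsOpen U ∧ x ∈ U ∧ (∀ y ∈ U, y - x ∈ P) ∧
      (x ∉ SuppPts μ → ∀ f : G →ᵇ ℂ, U01 f → (∀ y, f y ≠ 0 → y ∈ U) → f • μ = 0) := by
    intro x
    have hW : {y | y - x ∈ P} ∈ 𝓝 x := by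
      have hc : Tendsto (fun y : G => y - x) (𝓝 x) (𝓝 (x - x)) := (continuous_id.sub continuous_const).tendsto x
      rw [sub_self] at hc
      exact hc hP
    by_cases hx : x ∈ SuppPts μ
    · obtain ⟨U, hUW, hUo, hxU⟩ := mem_nhds_iff.1 hW
      exact ⟨U, hUo, hxU, fun y hy => hUW hy, fun h => absurd hx h⟩
    · have hx' : ¬ ∀ U ∈ 𝓝 x, ∃ f : G →ᵇ ℂ, U01 f ∧ (∀ y, f y ≠ 0 → y ∈ U) ∧ f • μ ≠ 0 := hx
      push Not at hx'
      obtain ⟨U1, hU1, hU2⟩ := hx'
      obtain ⟨U, hUW, hUo, hxU⟩ := mem_nhds_iff.1 (inter_mem hW hU1)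
      exact ⟨U, hUo, hxU, fun y hy => (hUW hy).1, fun _ f hf hfU => hU2 f hf (fun y hy => (hUW (hfU y hy)).2)⟩
  choose U hUo hxU hUP hU0 using hnb
  obtain ⟨t, ht, htK⟩ := (show IsCompact (tsupport u0) from hu0.cs).elim_nhds_subcover U
    (fun x _ => (hUo x).mem_nhds (hxU x))
  let e := t.equivFin.symm
  obtain ⟨f, h1, h2, h3, h4⟩ := exists_continuous_sum_one_of_isOpen_isCompact
    (n := t.card) (t := tsupport u0) (s := fun i => U (e i))
    (fun i => hUo _) hu0.cs (fun y hy => by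
      obtain ⟨x, hx, hxy⟩ := Set.mem_iUnion₂.1 (htK hy)
      refine Set.mem_iUnion.2 ⟨t.equivFin ⟨x, hx⟩, ?_⟩
      change y ∈ U ((t.equivFin.symm (t.equivFin ⟨x, hx⟩) : t) : G)
      rw [Equiv.symm_apply_apply]
      exact hxy)
  have hc : ∀ i, HasCompactSupport (fun x => ((f i x : ℝ) : ℂ)) := fun i =>
    (h4 i).comp_left (g := fun r : ℝ => (r : ℂ)) (by simp)
  let v : Fin t.card → C₀(G, ℂ) := fun i =>
    { toFun := fun x => (f i x : ℂ)
      continuous_toFun := Complex.continuous_ofReal.comp (f i).continuous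
      zero_at_infty' := (hc i).is_zero_at_infty }
  have hv : ∀ i, Cut (v i) := by
    intro i
    refine ⟨hc i, fun x => ?_, fun x => ?_⟩
    · change (0 : ℂ) ≤ (f i x : ℂ)
      exact_mod_cast (h3 i x).1
    · change (f i x : ℂ) ≤ 1
      exact_mod_cast (h3 i x).2
  have hvU : ∀ i y, v i y ≠ 0 → y ∈ U (e i) := by
    intro i y hy
    have hy2 : f i y ≠ 0 := by
      intro h
      apply hy
      change (f i y : ℂ) = 0
      rw [h]; simp
    exact h1 i (subset_tsupport _ hy2)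
  have hvs : ∀ y ∈ tsupport u0, ∑ i, bc (v i) y = 1 := by
    intro y hy
    have := h2 hy
    simp only [Pi.one_apply, Finset.sum_apply] at this
    change ∑ i, ((f i y : ℝ) : ℂ) = 1
    rw [← Complex.ofReal_sum, this]; simp
  have hsum : ‖μ‖ ≤ ∑ i, ‖bc (v i) • μ‖ := by
    have := norm_sum_le Finset.univ (fun i => bc (v i) • μ)
    rwa [parts_eq hin hvs] at this
  have hterm : ∀ i, ‖bc (v i) • μ‖ ≤ if (e i : G) ∈ hfin.toFinset then ε else 0 := by
    intro i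
    split_ifs with hi
    · apply hV2 _ (hv i).U01
      intro y z hy hz
      have := hPP _ (hUP _ _ (hvU i y hy)) _ (hUP _ _ (hvU i z hz))
      rwa [sub_sub_sub_cancel_right] at this
    · rw [hU0 _ (fun h => hi (hfin.mem_toFinset.2 h)) (bc (v i)) (hv i).U01 (hvU i), norm_zero]
  have hle : ∑ i, (if (e i : G) ∈ hfin.toFinset then ε else 0) ≤ hfin.toFinset.card * ε := by
    rw [Equiv.sum_comp e (fun x : t => if (x : G) ∈ hfin.toFinset then ε else 0),
      Finset.sum_coe_sort t (fun x => if x ∈ hfin.toFinset then ε else 0), ← Finset.sum_filter,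
      Finset.sum_const, nsmul_eq_mul]
    apply mul_le_mul_of_nonneg_right _ hε.le
    exact_mod_cast Finset.card_le_card (fun x hx => (Finset.mem_filter.1 hx).2)
  have hlast : (hfin.toFinset.card : ℝ) * ε < ‖μ‖ := by
    rw [hεd, mul_div_assoc', div_lt_iff₀ (by positivity)]
    have : (0 : ℝ) ≤ hfin.toFinset.card := Nat.cast_nonneg _
    nlinarith
  have := hsum.trans (Finset.sum_le_sum fun i _ => hterm i)
  linarith

end s0

theorem indep {μ : Meas G} (hS : (SuppPts μ).Infinite) (n : ℕ) :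
    ∃ f : Fin n → (G →ᵇ ℂ), LinearIndependent ℂ (fun i => f i • μ) := by
  obtain ⟨T, hTS, hTn⟩ := hS.exists_subset_card_eq n
  obtain ⟨U, hU, hdisj⟩ := (T.finite_toSet).t2_separation
  have hf : ∀ x : G, ∃ f : G →ᵇ ℂ, x ∈ T → ((∀ y, f y ≠ 0 → y ∈ U x) ∧ f • μ ≠ 0) := by
    intro x
    by_cases hx : x ∈ T
    · obtain ⟨f, _, h2, h3⟩ := hTS hx (U x) ((hU x).2.mem_nhds (hU x).1)
      exact ⟨f, fun _ => ⟨h2, h3⟩⟩
    · exact ⟨0, fun h => absurd h hx⟩
  choose f hf using hf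
  let e : Fin n ≃ T := (finCongr hTn.symm).trans T.equivFin.symm
  refine ⟨fun i => f (e i), linearIndependent_iff'.2 ?_⟩
  intro s g hg i hi
  have h1 : (star (f (e i))) • (∑ j ∈ s, g j • (f (e j) • μ)) = 0 := by rw [hg, smul_zero]
  have h2 : (star (f (e i))) • (∑ j ∈ s, g j • (f (e j) • μ)) = g i • ((star (f (e i)) * f (e i)) • μ) := by
    rw [Finset.smul_sum, Finset.sum_eq_single i]
    · rw [act_csmul, mul_smul]
    · intro j _ hji
      rw [act_csmul, ← mul_smul]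
      have : star (f (e i)) * f (e j) = 0 := by
        ext y
        change star (f (e i) y) * f (e j) y = 0
        by_contra hne
        have a1 : f (e i) y ≠ 0 := fun h => hne (by rw [h, star_zero, zero_mul])
        have a2 : f (e j) y ≠ 0 := fun h => hne (by rw [h, mul_zero])
        have a3 : (e i : G) ≠ e j := fun h => hji (e.injective (Subtype.ext h.symm))
        exact Set.disjoint_left.1 (hdisj (e i).2 (e j).2 a3) ((hf _ (e i).2).1 y a1) ((hf _ (e j).2).1 y a2)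
      rw [this, zero_smul, smul_zero]
    · intro h; exact absurd hi h
  rw [h2] at h1
  rcases smul_eq_zero.1 h1 with h3 | h3
  · exact h3
  · exact absurd (sq_zero h3) (hf _ (e i).2).2

/-- the linear map `f ↦ f μ` -/
def wtL (μ : Meas G) : (G →ᵇ ℂ) →ₗ[ℂ] Meas G where
  toFun f := f • μ
  map_add' f g := add_smul f g μ
  map_smul' c f := csmul_act c f μ

/-- the closed span of the weights of `μ` -/
def XX (μ : Meas G) : Submodule ℂ (Meas G) := (LinearMap.range (wtL μ)).topologicalClosure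

theorem XX_closed (μ : Meas G) : IsClosed (XX μ : Set (Meas G)) := Submodule.isClosed_topologicalClosure _

theorem XX_mem (μ : Meas G) (f : G →ᵇ ℂ) : f • μ ∈ XX μ :=
  Submodule.le_topologicalClosure _ ⟨f, rfl⟩

theorem XX_ind {μ : Meas G} {P : Meas G → Prop} (h1 : ∀ f : G →ᵇ ℂ, P (f • μ)) (hcl : IsClosed {ξ | P ξ})
    {ξ : Meas G} (hξ : ξ ∈ XX μ) : P ξ := by
  have h3 : (XX μ : Set (Meas G)) ⊆ {ξ | P ξ} := by
    rw [XX, Submodule.topologicalClosure_coe]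
    apply closure_minimal _ hcl
    rintro _ ⟨f, rfl⟩
    exact h1 f
  exact h3 hξ

theorem XX_act {μ : Meas G} {ξ : Meas G} (hξ : ξ ∈ XX μ) (b : G →ᵇ ℂ) : b • ξ ∈ XX μ := by
  refine XX_ind (P := fun ξ => b • ξ ∈ XX μ) ?_ ?_ hξ
  · intro f; rw [← mul_smul]; exact XX_mem μ _
  · exact (XX_closed μ).preimage (actL b).continuous

theorem XX_inf {μ : Meas G} (hS : (SuppPts μ).Infinite) : ¬ FiniteDimensional ℂ (XX μ) := by
  intro hfd
  obtain ⟨f, hf⟩ := indep hS (Module.finrank ℂ (XX μ) + 1)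
  have h1 : LinearIndependent ℂ (fun i => (⟨f i • μ, XX_mem μ (f i)⟩ : XX μ)) :=
    LinearIndependent.of_comp (XX μ).subtype hf
  have h2 := h1.fintype_card_le_finrank
  rw [Fintype.card_fin] at h2
  omega

section s3
variable [MeasurableSpace G] [BorelSpace G]

/-- everything together -/
theorem full [hnd : NeBot (𝓝[≠] (0 : G))] : ∃ μ : Meas G, Pos μ ∧ (∃ u0 : C₀(G, ℂ), Cut u0 ∧ bc u0 • μ = μ) ∧
    (∀ ε > 0, ∃ V ∈ 𝓝 (0 : G), ∀ ψ : G →ᵇ ℂ, U01 ψ → Small V ψ → ‖ψ • μ‖ ≤ ε) ∧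
    ¬ FiniteDimensional ℂ (XX μ) ∧
    (∀ φ : Meas G →ₐ[ℂ] ℂ, (∀ ξ ∈ L1c G, φ ξ = 0) → ∀ ξ ∈ XX μ, φ ξ = 0) ∧
    ∀ ξ ∈ XX μ, ∀ ν : Meas G, ∀ n : ℕ, 1 ≤ n → ν ^ n ∈ L1c G → ‖ξ‖ ≤ ‖ξ - ν‖ := by
  obtain ⟨u0, μ, hu0, hpos, hin, hn, hU, hL⟩ := main_data1 (G := G)
  have hd := diffuse hin hU
  have hne : μ ≠ 0 := by
    intro h
    rw [h, norm_zero] at hn
    norm_num at hn
  refine ⟨μ, hpos, ⟨u0, hu0, hin⟩, hd, XX_inf (infinite_supp hu0 hin hne hd), ?_, ?_⟩
  · intro φ hφ ξ hξ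
    refine XX_ind (P := fun ξ => φ ξ = 0) ?_ ?_ hξ
    · intro f
      refine hom_act hu0 hin (fun φ hφ => final_hom hin ?_ φ hφ) φ hφ f
      intro ε hε
      obtain ⟨m, u, R, J, c1, c2, c3, c4, _⟩ := hU ε hε
      exact ⟨m, u, R, J, c1, c2, c3, c4⟩
    · have hc : Continuous φ := (AlgHom.toContinuousLinearMap φ).continuous
      exact isClosed_eq hc continuous_const
  · intro ξ hξ ν n hn1 hν
    refine XX_ind (P := fun ξ => ‖ξ‖ ≤ ‖ξ - ν‖) ?_ ?_ hξ
    · intro f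
      exact final_nil2 hu0 hpos hin (fun f hf ν n hn1 hν => final_nil1 hu0 hpos hin hL hf hn1 hν) f hn1 hν
    · exact isClosed_le continuous_norm (continuous_id.sub continuous_const).norm

end s3

end
end Pool.Agent.Y590.RadN
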